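import Pool.Agent.Helper74.DI.St

/-!
# Project DI, module HT3: third configuration
-/

set_option autoImplicit false

namespace Pool.Agent.Helper27.DI

open Pool.Agent.Helper74 Pool.Agent.Helper74.DI
open Pool.Agent.Helper74.NM (NC)
open Pool.Agent.Helper74.WB (OP QW rl enc iv ap rd Red op_append)

theorem hHT3 (hTRG : StTRG) (hFWD : StFWD) : StHT3 := by
  classical
  intro G R hsym hT
  obtain ⟨x, x', u, y, y', z, hxy', hxz, hx'z, huy, huz, nxy, nx'y, nx'y', nuy'⟩ := hT
  -- the letters are different
  have dxx' : x ≠ x' := fun h => nx'y' (h ▸ hxy')
  have dxu : x ≠ u := fun h => nuy' (h ▸ hxy')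
  have dx'u : x' ≠ u := fun h => nx'y (h ▸ huy)
  have dyy' : y ≠ y' := fun h => nuy' (h ▸ huy)
  have dyz : y ≠ z := fun h => nxy (h ▸ hxz)
  have dy'z : y' ≠ z := fun h => nuy' (h ▸ huz)
  set k : ((Bool × Bool) × Bool) → List G := fun a =>
    if a.1.1 then (if a.1.2 then [u, z] else [x', y])
    else (if a.1.2 then [x, z] else [x', y']) with hk
  have nest : ∀ (a b c d : G) (U : List G), R a d → R b c → NC R U →
      NC R ([a, b] ++ (U ++ [c, d])) := by
    intro a b c d U had hbc hU
    have h1 := NC.wrap b c U [] hbc hU NC.nil
    have h2 := NC.wrap a d (b :: (U ++ [c])) [] had h1 NC.nil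
    simpa using h2
  refine ⟨k, ?_, ?_⟩
  · rintro ⟨⟨i, s⟩, o⟩
    cases i <;> cases s <;> simp [hk]
  intro w hw
  constructor
  · refine hFWD G R k ?_ ?_ ?_ w hw
    · intro i
      cases i
      · simpa [hk] using nc_pair x z hxz
      · simpa [hk] using nc_pair u z huz
    · intro i U hU
      cases i
      · simpa [hk] using nest x z x' y' U hxy' (hsym _ _ hx'z) hU
      · simpa [hk] using nest u z x' y U huy (hsym _ _ hx'z) hU
    · intro i U hU
      cases i
      · simpa [hk] using nest x' y' x z U hx'z (hsym _ _ hxy') hU
      · simpa [hk] using nest x' y u z U hx'z (hsym _ _ huy) hU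
  · intro hN
    set δ : Bool → G → Bool := fun b _ => !b with hδ
    set f : Bool → G → List ((Bool × Bool) × Bool) := fun b a =>
      if b then (if a = x then [((false, true), true)] else
        if a = u then [((true, true), true)] else [])
      else (if a = y' then [((false, false), false)] else
        if a = y then [((true, false), false)] else []) with hf
    set al : Bool → G → Prop := fun b a =>
      if b then (a = x ∨ a = x' ∨ a = u) else (a = y ∨ a = y' ∨ a = z) with hal
    have ftx : f true x = [((false, true), true)] := by simp [hf]
    have ftx' : f true x' = [] := by simp [hf, dxx'.symm, dx'u]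
    have ftu : f true u = [((true, true), true)] := by simp [hf, dxu.symm]
    have ffy' : f false y' = [((false, false), false)] := by simp [hf]
    have ffy : f false y = [((true, false), false)] := by simp [hf, dyy']
    have ffz : f false z = [] := by simp [hf, dy'z.symm, dyz.symm]
    have hout : ∀ v : List ((Bool × Bool) × Bool), QW v →
        Al δ al true (v.flatMap k) ∧ out δ f true (v.flatMap k) = v := by
      intro v hv
      induction v with
      | nil => simp [Al, out]
      | cons a v ih =>
        obtain ⟨h1, h2⟩ := ih fun b hb => hv b (List.mem_cons_of_mem a hb)
        have ha := hv a (List.mem_cons_self)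
        rcases a with ⟨⟨i, s⟩, o⟩
        simp only at ha
        subst ha
        rw [List.flatMap_cons]
        cases i <;> cases o
        · have e : k ((false, false), false) = [x', y'] := by simp [hk]
          rw [e]
          refine ⟨?_, ?_⟩
          · simp only [List.cons_append, List.nil_append, Al]
            exact ⟨by simp [hal], by simp [hal, hδ], by simpa [hδ] using h1⟩
          · simp only [List.cons_append, List.nil_append, out]
            have e1 : δ true x' = false := rfl
            have e2 : δ false y' = true := rfl
            rw [e1, e2, h2, ftx', ffy']
            rfl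
        · have e : k ((false, true), true) = [x, z] := by simp [hk]
          rw [e]
          refine ⟨?_, ?_⟩
          · simp only [List.cons_append, List.nil_append, Al]
            exact ⟨by simp [hal], by simp [hal, hδ], by simpa [hδ] using h1⟩
          · simp only [List.cons_append, List.nil_append, out]
            have e1 : δ true x = false := rfl
            have e2 : δ false z = true := rfl
            rw [e1, e2, h2, ftx, ffz]
            rfl
        · have e : k ((true, false), false) = [x', y] := by simp [hk]
          rw [e]
          refine ⟨?_, ?_⟩
          · simp only [List.cons_append, List.nil_append, Al]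
            exact ⟨by simp [hal], by simp [hal, hδ], by simpa [hδ] using h1⟩
          · simp only [List.cons_append, List.nil_append, out]
            have e1 : δ true x' = false := rfl
            have e2 : δ false y = true := rfl
            rw [e1, e2, h2, ftx', ffy]
            rfl
        · have e : k ((true, true), true) = [u, z] := by simp [hk]
          rw [e]
          refine ⟨?_, ?_⟩
          · simp only [List.cons_append, List.nil_append, Al]
            exact ⟨by simp [hal], by simp [hal, hδ], by simpa [hδ] using h1⟩
          · simp only [List.cons_append, List.nil_append, out]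
            have e1 : δ true u = false := rfl
            have e2 : δ false z = true := rfl
            rw [e1, e2, h2, ftu, ffz]
            rfl
    obtain ⟨hA, hO⟩ := hout w hw
    have key : ∀ (s : Bool) (p q : G), R p q → al s p → al (δ s p) q →
        δ (δ s p) q = s ∧ ∀ U, OP U → OP (f s p ++ (U ++ f (δ s p) q)) := by
      intro s p q hpq hp hq
      refine ⟨by simp [hδ], fun U hU => ?_⟩
      have hskip : ∀ a : Bool × Bool, OP (U ++ [(a, true)]) := fun a =>
        op_append U _ hU (OP.skip a [] OP.nil)
      cases s
      · -- state false
        have hq' : q = x ∨ q = x' ∨ q = u := by simpa [hal, hδ] using hq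
        have hp' : p = y ∨ p = y' ∨ p = z := by simpa [hal] using hp
        have e1 : δ false p = true := rfl
        rw [e1]
        rcases hp' with rfl | rfl | rfl
        · rcases hq' with rfl | rfl | rfl
          · exact absurd (hsym _ _ hpq) nxy
          · exact absurd (hsym _ _ hpq) nx'y
          · rw [ffy, ftu]
            exact OP.wrap (true, false) false true U [] hU OP.nil
        · rcases hq' with rfl | rfl | rfl
          · rw [ffy', ftx]
            exact OP.wrap (false, false) false true U [] hU OP.nil
          · exact absurd (hsym _ _ hpq) nx'y'
          · exact absurd (hsym _ _ hpq) nuy'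
        · rcases hq' with rfl | rfl | rfl
          · rw [ffz, ftx]
            exact hskip _
          · rw [ffz, ftx']
            simpa using hU
          · rw [ffz, ftu]
            exact hskip _
      · -- state true
        have hp' : p = x ∨ p = x' ∨ p = u := by simpa [hal] using hp
        have hq' : q = y ∨ q = y' ∨ q = z := by simpa [hal, hδ] using hq
        have e1 : δ true p = false := rfl
        rw [e1]
        rcases hp' with rfl | rfl | rfl
        · rcases hq' with rfl | rfl | rfl
          · exact absurd hpq nxy
          · rw [ftx, ffy']
            exact OP.wrap (false, true) true false U [] hU OP.nil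
          · rw [ftx, ffz]
            exact OP.skip _ _ (by simpa using hU)
        · rcases hq' with rfl | rfl | rfl
          · exact absurd hpq nx'y
          · exact absurd hpq nx'y'
          · rw [ftx', ffz]
            simpa using hU
        · rcases hq' with rfl | rfl | rfl
          · rw [ftu, ffy]
            exact OP.wrap (true, true) true false U [] hU OP.nil
          · exact absurd hpq nuy'
          · rw [ftu, ffz]
            exact OP.skip _ _ (by simpa using hU)
    have h3 := (hTRG G Bool Bool R δ f al key (w.flatMap k) hN true hA).2
    rw [hO] at h3
    exact h3

end Pool.Agent.Helper27.DI
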